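import Mathlib

namespace Pool.Agent.Results.MP_0d5a8e_co.Counter

open Module Classical

/-- the adjacency operator -/
noncomputable def op {n : ℕ} (G : SimpleGraph (Fin n)) : End ℝ (Fin n → ℝ) :=
  Matrix.toLin' (G.adjMatrix ℝ)

/-- `θ` is the second largest distinct eigenvalue of the adjacency matrix -/
def IsSecond {n : ℕ} (G : SimpleGraph (Fin n)) (θ : ℝ) : Prop :=
  (op G).HasEigenvalue θ ∧ ∃ θ₁, θ < θ₁ ∧ (op G).HasEigenvalue θ₁ ∧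
    ∀ μ, (op G).HasEigenvalue μ → θ < μ → μ = θ₁

/-- row `i` of the matrix whose columns are the basis vectors of the eigenspace -/
noncomputable def row {n d : ℕ} {G : SimpleGraph (Fin n)} {θ : ℝ}
    (u : Basis (Fin d) ℝ ((op G).eigenspace θ)) (i : Fin n) : Fin d → ℝ := fun k => (u k).1 i

/-- the eigenpolytope -/
def poly {n d : ℕ} {G : SimpleGraph (Fin n)} {θ : ℝ}
    (u : Basis (Fin d) ℝ ((op G).eigenspace θ)) : Set (Fin d → ℝ) :=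
  convexHull ℝ (Set.range (row u))

def L : List (Fin 7 × Fin 7) := [(0, 5), (0, 6), (1, 2), (1, 4), (1, 6), (2, 3), (2, 6), (3, 4), (3, 5), (4, 5), (5, 6)]

def G0 : SimpleGraph (Fin 7) := SimpleGraph.fromRel fun a b => (a, b) ∈ L

theorem adj (a b : Fin 7) : G0.Adj a b ↔ (a, b) ∈ L ∨ (b, a) ∈ L := by
  rw [G0, SimpleGraph.fromRel_adj]
  revert a b
  decide

theorem mem (μ : ℝ) (x : Fin 7 → ℝ) : x ∈ (op G0).eigenspace μ ↔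
      x 5 + x 6 = μ * x 0 ∧
      x 2 + x 4 + x 6 = μ * x 1 ∧
      x 1 + x 3 + x 6 = μ * x 2 ∧
      x 2 + x 4 + x 5 = μ * x 3 ∧
      x 1 + x 3 + x 5 = μ * x 4 ∧
      x 0 + x 3 + x 4 + x 6 = μ * x 5 ∧
      x 0 + x 1 + x 2 + x 5 = μ * x 6 := by
  rw [End.mem_eigenspace_iff, op, Matrix.toLin'_apply, funext_iff]
  simp only [Matrix.mulVec, dotProduct, SimpleGraph.adjMatrix_apply, adj, Fin.forall_fin_succ,
    Fin.sum_univ_succ]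
  simp [L, add_assoc]

theorem eig (μ : ℝ) : (op G0).HasEigenvalue μ ↔ ∃ x ∈ (op G0).eigenspace μ, x ≠ 0 :=
  Submodule.ne_bot_iff _

noncomputable def e : (Fin 2 → ℝ) ≃ₗ[ℝ] (op G0).eigenspace 1 where
  toFun a := ⟨![a 0 + a 1, -a 0, -a 0, -a 1, -a 1, a 0, a 1], by
    rw [mem]; simp⟩
  invFun x := ![x.1 5, x.1 6]
  map_add' a b := by
    ext i; fin_cases i <;> simp <;> ring
  map_smul' c a := by
    ext i; fin_cases i <;> simp <;> ring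
  left_inv a := by
    ext i; fin_cases i <;> simp
  right_inv x := by
    obtain ⟨x, hx⟩ := x
    obtain ⟨h0, h1, h2, h3, h4, h5, h6⟩ := (mem _ _).1 hx
    ext i; fin_cases i <;> simp <;> linarith

noncomputable def u0 : Basis (Fin 2) ℝ ((op G0).eigenspace 1) := Basis.ofEquivFun e.symm

theorem row_eq : row u0 = ![![1, 1], ![-1, 0], ![-1, 0], ![0, -1], ![0, -1], ![1, 0], ![0, 1]] := by
  ext i k
  simp only [row, u0, Basis.coe_ofEquivFun, LinearEquiv.symm_symm]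
  fin_cases i <;> fin_cases k <;> simp [e]

theorem second : IsSecond G0 1 := by
  have s5 : √5 * √5 = 5 := Real.mul_self_sqrt (by norm_num)
  have s0 : 0 < √5 := by positivity
  refine ⟨(eig _).2 ⟨![1, -1, -1, 0, 0, 1, 0], by rw [mem]; simp, fun h => by
    simpa using congrFun h 0⟩, 1 + √5, by linarith,
    (eig _).2 ⟨![4, √5 + 3, √5 + 3, √5 + 3, √5 + 3, 2 * √5 + 2, 2 * √5 + 2], ?_, fun h => by
      simpa using congrFun h 0⟩, ?_⟩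
  · rw [mem]
    simp only [Matrix.cons_val]
    refine ⟨?_, ?_, ?_, ?_, ?_, ?_, ?_⟩ <;> nlinarith
  · intro μ h hμ
    obtain ⟨x, hx, h0⟩ := (eig _).1 h
    obtain ⟨i, hi⟩ := Function.ne_iff.1 h0
    obtain ⟨h0, h1, h2, h3, h4, h5, h6⟩ := (mem _ _).1 hx
    have : ∀ i, μ * (μ - 1) * (μ + 2) * (μ ^ 2 - 2 * μ - 4) * x i = 0 := by
      intro i
      fin_cases i <;> simp only [Fin.zero_eta, Fin.mk_one, Fin.reduceFinMk]
      · linear_combination -(((-6) * μ ^ 2 + (-1) * μ ^ 3 + (1) * μ ^ 4) * h0 + ((2) * μ ^ 1 + (1) * μ ^ 2) * h1 + ((2) * μ ^ 1 + (1) * μ ^ 2) * h2 + ((2) * μ ^ 1 + (1) * μ ^ 2) * h3 + ((2) * μ ^ 1 + (1) * μ ^ 2) * h4 + ((-4) * μ ^ 1 + (1) * μ ^ 3) * h5 + ((-4) * μ ^ 1 + (1) * μ ^ 3) * h6)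
      · linear_combination -(((2) * μ ^ 1 + (1) * μ ^ 2) * h0 + ((2) * μ ^ 0 + (-1) * μ ^ 1 + (-5) * μ ^ 2 + (-1) * μ ^ 3 + (1) * μ ^ 4) * h1 + ((-2) * μ ^ 0 + (-3) * μ ^ 1 + (1) * μ ^ 3) * h2 + ((-2) * μ ^ 0 + (1) * μ ^ 1 + (2) * μ ^ 2) * h3 + ((2) * μ ^ 0 + (-1) * μ ^ 1 + (-1) * μ ^ 2 + (1) * μ ^ 3) * h4 + ((2) * μ ^ 1 + (2) * μ ^ 2) * h5 + ((-2) * μ ^ 1 + (1) * μ ^ 3) * h6)
      · linear_combination -(((2) * μ ^ 1 + (1) * μ ^ 2) * h0 + ((-2) * μ ^ 0 + (-3) * μ ^ 1 + (1) * μ ^ 3) * h1 + ((2) * μ ^ 0 + (-1) * μ ^ 1 + (-5) * μ ^ 2 + (-1) * μ ^ 3 + (1) * μ ^ 4) * h2 + ((2) * μ ^ 0 + (-1) * μ ^ 1 + (-1) * μ ^ 2 + (1) * μ ^ 3) * h3 + ((-2) * μ ^ 0 + (1) * μ ^ 1 + (2) * μ ^ 2) * h4 + ((2) * μ ^ 1 + (2) * μ ^ 2) * h5 + ((-2) * μ ^ 1 + (1) * μ ^ 3) * h6)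
      · linear_combination -(((2) * μ ^ 1 + (1) * μ ^ 2) * h0 + ((-2) * μ ^ 0 + (1) * μ ^ 1 + (2) * μ ^ 2) * h1 + ((2) * μ ^ 0 + (-1) * μ ^ 1 + (-1) * μ ^ 2 + (1) * μ ^ 3) * h2 + ((2) * μ ^ 0 + (-1) * μ ^ 1 + (-5) * μ ^ 2 + (-1) * μ ^ 3 + (1) * μ ^ 4) * h3 + ((-2) * μ ^ 0 + (-3) * μ ^ 1 + (1) * μ ^ 3) * h4 + ((-2) * μ ^ 1 + (1) * μ ^ 3) * h5 + ((2) * μ ^ 1 + (2) * μ ^ 2) * h6)
      · linear_combination -(((2) * μ ^ 1 + (1) * μ ^ 2) * h0 + ((2) * μ ^ 0 + (-1) * μ ^ 1 + (-1) * μ ^ 2 + (1) * μ ^ 3) * h1 + ((-2) * μ ^ 0 + (1) * μ ^ 1 + (2) * μ ^ 2) * h2 + ((-2) * μ ^ 0 + (-3) * μ ^ 1 + (1) * μ ^ 3) * h3 + ((2) * μ ^ 0 + (-1) * μ ^ 1 + (-5) * μ ^ 2 + (-1) * μ ^ 3 + (1) * μ ^ 4) * h4 + ((-2) * μ ^ 1 + (1) * μ ^ 3) * h5 + ((2) * μ ^ 1 + (2) * μ ^ 2) * h6)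
      · linear_combination -(((-4) * μ ^ 1 + (1) * μ ^ 3) * h0 + ((2) * μ ^ 1 + (2) * μ ^ 2) * h1 + ((2) * μ ^ 1 + (2) * μ ^ 2) * h2 + ((-2) * μ ^ 1 + (1) * μ ^ 3) * h3 + ((-2) * μ ^ 1 + (1) * μ ^ 3) * h4 + ((-4) * μ ^ 2 + (-1) * μ ^ 3 + (1) * μ ^ 4) * h5 + ((1) * μ ^ 3) * h6)
      · linear_combination -(((-4) * μ ^ 1 + (1) * μ ^ 3) * h0 + ((-2) * μ ^ 1 + (1) * μ ^ 3) * h1 + ((-2) * μ ^ 1 + (1) * μ ^ 3) * h2 + ((2) * μ ^ 1 + (2) * μ ^ 2) * h3 + ((2) * μ ^ 1 + (2) * μ ^ 2) * h4 + ((1) * μ ^ 3) * h5 + ((-4) * μ ^ 2 + (-1) * μ ^ 3 + (1) * μ ^ 4) * h6)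
    have h7 := (mul_eq_zero.1 (this i)).resolve_right hi
    have h8 : μ * (μ - 1) * (μ + 2) ≠ 0 := by
      have : 0 < μ - 1 := by linarith
      positivity
    have h9 := (mul_eq_zero.1 h7).resolve_left h8
    have : (μ - (1 + √5)) * (μ - 1 + √5) = 0 := by linear_combination h9 - s5
    linarith [(mul_eq_zero.1 this).resolve_right (by linarith)]

theorem sub (p : Fin 2 → ℝ) (hp : p ∈ poly u0) :
    p 0 ≤ 1 ∧ p 1 ≤ 1 ∧ p 0 - p 1 ≤ 1 ∧ p 1 - p 0 ≤ 1 := by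
  refine convexHull_min (t := {p | p 0 ≤ 1 ∧ p 1 ≤ 1 ∧ p 0 - p 1 ≤ 1 ∧ p 1 - p 0 ≤ 1}) ?_ ?_ hp
  · rintro _ ⟨i, rfl⟩
    rw [row_eq]
    fin_cases i <;> simp
  · rintro a ⟨a1, a2, a3, a4⟩ b ⟨b1, b2, b3, b4⟩ s t hs ht hst
    simp only [Set.mem_ofPred_eq, Pi.add_apply, Pi.smul_apply, smul_eq_mul]
    refine ⟨?_, ?_, ?_, ?_⟩ <;> nlinarith

theorem inP (i : Fin 7) : row u0 i ∈ poly u0 := subset_convexHull _ _ ⟨i, rfl⟩

theorem ext1 {a b s t : ℝ} (ha : a ≤ 1) (hb : b ≤ 1) (hs : 0 < s) (ht : 0 < t) (h : s + t = 1)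
    (h' : s * a + t * b = 1) : a = 1 := by nlinarith

theorem result : ¬ ∀ (n d : ℕ) (G : SimpleGraph (Fin n)) (θ : ℝ)
    (u : Basis (Fin d) ℝ ((op G).eigenspace θ)) (i j : Fin n), IsSecond G θ → G.Adj i j →
    row u i ≠ row u j → row u i ∈ (poly u).extremePoints ℝ → row u j ∈ (poly u).extremePoints ℝ →
    IsExtreme ℝ (poly u) (segment ℝ (row u i) (row u j)) := by
  intro h
  have r5 : row u0 5 = ![1, 0] := by rw [row_eq]; rfl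
  have r6 : row u0 6 = ![0, 1] := by rw [row_eq]; rfl
  have r0 : row u0 0 = ![1, 1] := by rw [row_eq]; rfl
  have r1 : row u0 1 = ![-1, 0] := by rw [row_eq]; rfl
  have H := h 7 2 G0 1 u0 5 6 second ((adj _ _).2 (by decide))
    (fun h => by rw [r5, r6] at h; simpa using congrFun h 0) ⟨inP 5, ?_⟩ ⟨inP 6, ?_⟩
  · have z : (![0, 0] : Fin 2 → ℝ) ∈ poly u0 := by
      have := (convex_convexHull ℝ _) (inP 1) (inP 5) (a := 1 / 2) (b := 1 / 2) (by norm_num)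
        (by norm_num) (by norm_num)
      rw [r1, r5] at this
      have e0 : (![0, 0] : Fin 2 → ℝ) = (1 / 2 : ℝ) • ![-1, 0] + (1 / 2 : ℝ) • ![1, 0] := by
        ext i; fin_cases i <;> simp
      rw [e0]
      exact this
    have := H.left_mem_of_mem_openSegment z (inP 0) (z := (![1 / 2, 1 / 2] : Fin 2 → ℝ))
      ⟨1 / 2, 1 / 2, by norm_num, by norm_num, by norm_num, by
        rw [r5, r6]; funext i; fin_cases i <;> simp⟩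
      ⟨1 / 2, 1 / 2, by norm_num, by norm_num, by norm_num, by
        rw [r0]; ext i; fin_cases i <;> simp⟩
    obtain ⟨s, t, -, -, hst, h⟩ := this
    rw [r5, r6] at h
    have h0 := congrFun h 0
    have h1 := congrFun h 1
    simp at h0 h1
    linarith
  · rintro a ha b hb ⟨s, t, hs, ht, hst, h⟩
    obtain ⟨a1, -, a3, -⟩ := sub a ha
    obtain ⟨b1, -, b3, -⟩ := sub b hb
    rw [r5] at h ⊢
    have h0 := congrFun h 0
    have h1 := congrFun h 1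
    simp at h0 h1
    have e1 := ext1 a1 b1 hs ht hst h0
    have e2 := ext1 a3 b3 hs ht hst (by linarith)
    ext i; fin_cases i <;> simp <;> linarith
  · rintro a ha b hb ⟨s, t, hs, ht, hst, h⟩
    obtain ⟨-, a1, -, a3⟩ := sub a ha
    obtain ⟨-, b1, -, b3⟩ := sub b hb
    rw [r6] at h ⊢
    have h0 := congrFun h 0
    have h1 := congrFun h 1
    simp at h0 h1
    have e1 := ext1 a1 b1 hs ht hst h1
    have e2 := ext1 a3 b3 hs ht hst (by linarith)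
    ext i; fin_cases i <;> simp <;> linarith

end Pool.Agent.Results.MP_0d5a8e_co.Counter
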